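import Pool.Agent.L0h79.FR.Defs

/-! Project FR, module LINK. -/

set_option autoImplicit false
set_option linter.all false
namespace Pool.Agent.L0h84.FR.LINK

open Pool.Agent.L0h79.FR

section
variable {K : Type} [Field K] {d : ℕ}

theorem coeff_mk (F : Finset (Fin d → ℤ)) (h : (Fin d → ℤ) → K) (m : Fin d → ℤ) :
    (∑ n ∈ F, (AddMonoidAlgebra.single n (h n) : AddMonoidAlgebra K (Fin d → ℤ))).coeff m =
      if m ∈ F then h m else 0 := by
  classical
  rw [AddMonoidAlgebra.coeff_sum, Finsupp.finset_sum_apply]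
  simp only [AddMonoidAlgebra.coeff_single, Finsupp.single_apply]
  rw [Finset.sum_ite_eq']

theorem key {Ω : Finset (Fin d → ℤ)} {B : AddMonoidAlgebra K (Fin d → ℤ)} {γ : Fin d → ℤ}
    (hγ : B.coeff γ ≠ 0)
    (hU : ∀ S : Finset (Fin d → ℤ), S.Nonempty → ∃ s ∈ S, UniqueAdd S B.coeff.support s γ)
    {Q : AddMonoidAlgebra K (Fin d → ℤ)} (hQ : ∀ n, Q.coeff n ≠ 0 → n ∈ Ω) (h0 : Q ≠ 0) :
    ∃ s ∈ Ω, (Q * B).coeff (s + γ) ≠ 0 := by
  have h1 : Q.coeff.support.Nonempty := by
    rw [Finsupp.support_nonempty_iff]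
    intro h
    exact h0 (AddMonoidAlgebra.coeff_eq_zero.1 h)
  obtain ⟨s, hs, hu⟩ := hU _ h1
  rw [Finsupp.mem_support_iff] at hs
  refine ⟨s, hQ s hs, ?_⟩
  rw [AddMonoidAlgebra.coeff_mul_add_of_uniqueAdd hu]
  exact mul_ne_zero hs hγ

/-- the linear map of the coefficients at the points `w + γ` -/
noncomputable def L (Ω : Finset (Fin d → ℤ)) (B : AddMonoidAlgebra K (Fin d → ℤ))
    (γ : Fin d → ℤ) : (Ω → K) →ₗ[K] (Ω → K) where
  toFun f := fun w => ((∑ v : Ω, (AddMonoidAlgebra.single v.1 (f v) :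
    AddMonoidAlgebra K (Fin d → ℤ))) * B).coeff (w.1 + γ)
  map_add' f g := by
    funext w
    simp only [Pi.add_apply, AddMonoidAlgebra.single_add, Finset.sum_add_distrib, add_mul,
      AddMonoidAlgebra.coeff_add, Finsupp.add_apply]
  map_smul' c f := by
    funext w
    have h : (∑ v : Ω, (AddMonoidAlgebra.single v.1 ((c • f) v) :
        AddMonoidAlgebra K (Fin d → ℤ))) = c • ∑ v : Ω, AddMonoidAlgebra.single v.1 (f v) := by
      rw [Finset.smul_sum]
      refine Finset.sum_congr rfl fun v _ => ?_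
      rw [AddMonoidAlgebra.smul_single]
      rfl
    show ((∑ v : Ω, (AddMonoidAlgebra.single v.1 ((c • f) v) :
        AddMonoidAlgebra K (Fin d → ℤ))) * B).coeff (w.1 + γ) = _
    rw [h, smul_mul_assoc, AddMonoidAlgebra.coeff_smul_apply]
    rfl

end

theorem t_LINK : S_LINK := by
  classical
  intro K _ G _ _ d I _ _ b W Ω x h1 h2 h3 i₀ γ hγ hU
  set T := (W ×ˢ (Finset.univ : Finset I)).filter fun p => ¬ (p.2 = i₀ ∧ p.1 - γ ∈ Ω) with hT
  have hsum : ∀ F : (Fin d → ℤ) × I → G, ∑ i, ∑ n ∈ W, F (n, i) =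
      ∑ p ∈ W ×ˢ (Finset.univ : Finset I), F p := by
    intro F
    rw [Finset.sum_product, Finset.sum_comm]
  have hW : ∀ w ∈ Ω, w + γ ∈ W := by
    intro w hw
    refine h1 (AddMonoidAlgebra.single w 1) ?_ i₀ (w + γ) ?_
    · intro n hn
      rw [AddMonoidAlgebra.coeff_single, Finsupp.single_apply] at hn
      split_ifs at hn with h
      · rw [← h]; exact hw
      · exact absurd rfl hn
    · rw [AddMonoidAlgebra.coeff_single_mul_eq_mul_coeff γ
        (fun m' _ => by rw [add_right_inj]), one_mul]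
      exact hγ
  refine ⟨?_, ?_, ?_⟩
  · have h5 : ((W ×ˢ (Finset.univ : Finset I)).filter fun p =>
        (p.2 = i₀ ∧ p.1 - γ ∈ Ω)).card = Ω.card := by
      symm
      refine Finset.card_bij (fun w _ => (w + γ, i₀)) ?_ ?_ ?_
      · intro w hw
        rw [Finset.mem_filter, Finset.mem_product]
        exact ⟨⟨hW w hw, Finset.mem_univ _⟩, rfl, by simpa using hw⟩
      · intro w _ w' _ h
        simpa using congrArg Prod.fst h
      · rintro ⟨n, i⟩ hn
        rw [Finset.mem_filter] at hn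
        exact ⟨n - γ, hn.2.2, Prod.ext (sub_add_cancel n γ) hn.2.1.symm⟩
    have h6 := Finset.card_filter_add_card_filter_not (s := W ×ˢ (Finset.univ : Finset I))
      (p := fun p => (p.2 = i₀ ∧ p.1 - γ ∈ Ω))
    rw [h5, Finset.card_product, Finset.card_univ] at h6
    rw [← h6, hT]
    ring
  · rw [Fintype.linearIndependent_iff]
    intro g hg
    set c : (Fin d → ℤ) × I → K := fun p => if h : p ∈ T then g ⟨p, h⟩ else 0 with hc
    set C : I → AddMonoidAlgebra K (Fin d → ℤ) :=
      fun i => ∑ n ∈ W, AddMonoidAlgebra.single n (c (n, i)) with hC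
    have hCc : ∀ i n, (C i).coeff n = if n ∈ W then c (n, i) else 0 := fun i n =>
      coeff_mk W (fun n => c (n, i)) n
    obtain ⟨Q, hQ, hQ2⟩ := h3 C (fun i n hn => by
        rw [hCc] at hn
        by_contra h
        rw [if_neg h] at hn
        exact hn rfl) (by
      have h5 : ∑ i, ∑ n ∈ W, (C i).coeff n • x n i = ∑ i, ∑ n ∈ W, c (n, i) • x n i := by
        refine Finset.sum_congr rfl fun i _ => Finset.sum_congr rfl fun n hn => ?_
        rw [hCc, if_pos hn]
      rw [h5, hsum fun p => c p • x p.1 p.2]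
      have h6 : ∑ p ∈ W ×ˢ (Finset.univ : Finset I), c p • x p.1 p.2 =
          ∑ p ∈ T, c p • x p.1 p.2 := by
        symm
        refine Finset.sum_subset (Finset.filter_subset _ _) fun p _ hp => ?_
        have : c p = 0 := by rw [hc]; exact dif_neg hp
        rw [this, zero_smul]
      rw [h6, ← Finset.sum_coe_sort]
      rw [← hg]
      refine Finset.sum_congr rfl fun p _ => ?_
      have : c p.1 = g p := by rw [hc]; exact dif_pos p.2
      rw [this])
    have hQ0 : Q = 0 := by
      by_contra h0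
      obtain ⟨s, hs, hne⟩ := key hγ hU hQ h0
      apply hne
      rw [← hQ2, hCc]
      split_ifs with h
      · have : (s + γ, i₀) ∉ T := by
          rw [hT, Finset.mem_filter]
          rintro ⟨_, h7⟩
          exact h7 ⟨rfl, by simpa using hs⟩
        rw [hc]; exact dif_neg this
      · rfl
    intro p
    have h7 : (C p.1.2).coeff p.1.1 = 0 := by
      rw [hQ2, hQ0, zero_mul]; rfl
    have hpW : p.1.1 ∈ W := (Finset.mem_product.1 (Finset.mem_filter.1 p.2).1).1
    rw [hCc, if_pos hpW] at h7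
    have : c p.1 = g p := by rw [hc]; exact dif_pos p.2
    rw [← this]
    exact h7
  · intro n hn i
    by_cases hni : (n, i) ∈ T
    · exact Submodule.subset_span ⟨⟨(n, i), hni⟩, rfl⟩
    have hni' : i = i₀ ∧ n - γ ∈ Ω := by
      by_contra h
      exact hni (Finset.mem_filter.2 ⟨Finset.mem_product.2 ⟨hn, Finset.mem_univ _⟩, h⟩)
    obtain ⟨rfl, hnΩ⟩ := hni'
    -- the coefficients
    have hmk : ∀ f : Ω → K, ∀ m, (∑ v : Ω, (AddMonoidAlgebra.single v.1 (f v) :
        AddMonoidAlgebra K (Fin d → ℤ))).coeff m = if h : m ∈ Ω then f ⟨m, h⟩ else 0 := by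
      intro f m
      have h5 : (∑ v : Ω, (AddMonoidAlgebra.single v.1 (f v) : AddMonoidAlgebra K (Fin d → ℤ))) =
          ∑ v ∈ Ω, AddMonoidAlgebra.single v (if h : v ∈ Ω then f ⟨v, h⟩ else 0) := by
        conv_rhs => rw [← Finset.sum_coe_sort]
        refine Finset.sum_congr rfl fun v _ => ?_
        rw [dif_pos v.2]
      rw [h5, coeff_mk]
      split_ifs <;> rfl
    have hinj : Function.Injective (L Ω (b i) γ) := by
      rw [← LinearMap.ker_eq_bot, LinearMap.ker_eq_bot']
      intro f hf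
      by_contra hf0
      have h5 : (∑ v : Ω, (AddMonoidAlgebra.single v.1 (f v) :
          AddMonoidAlgebra K (Fin d → ℤ))) ≠ 0 := by
        intro h
        apply hf0
        funext v
        have h6 := hmk f v.1
        rw [h, dif_pos v.2] at h6
        exact h6.symm
      obtain ⟨s, hs, hne⟩ := key (Ω := Ω) hγ hU (fun m hm => by
        rw [hmk] at hm
        by_contra h
        rw [dif_neg h] at hm
        exact hm rfl) h5
      exact hne (congrFun hf ⟨s, hs⟩)
    obtain ⟨f, hf⟩ := (LinearMap.injective_iff_surjective.1 hinj) (Pi.single ⟨n - γ, hnΩ⟩ 1)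
    set Q : AddMonoidAlgebra K (Fin d → ℤ) := ∑ v : Ω, AddMonoidAlgebra.single v.1 (f v) with hQ
    have hLf : ∀ w : Ω, (Q * b i).coeff (w.1 + γ) = (Pi.single ⟨n - γ, hnΩ⟩ 1 : Ω → K) w :=
      fun w => congrFun hf w
    have h5 := h2 Q (fun m hm => by
        rw [hQ, hmk] at hm
        by_contra h
        rw [dif_neg h] at hm
        exact hm rfl)
    rw [hsum fun p => (Q * b p.2).coeff p.1 • x p.1 p.2,
      ← Finset.sum_filter_add_sum_filter_not _ (fun p => (p.2 = i ∧ p.1 - γ ∈ Ω))] at h5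
    have h6 : ∑ p ∈ (W ×ˢ (Finset.univ : Finset I)).filter (fun p => (p.2 = i ∧ p.1 - γ ∈ Ω)),
        (Q * b p.2).coeff p.1 • x p.1 p.2 = x n i := by
      rw [Finset.sum_eq_single (n, i)]
      · have h7 := hLf ⟨n - γ, hnΩ⟩
        rw [Pi.single_eq_same] at h7
        have h8 : n - γ + γ = n := sub_add_cancel n γ
        simp only [h8] at h7
        simp only [h7, one_smul]
      · rintro ⟨m, j⟩ hm hne
        obtain ⟨_, rfl, hmΩ⟩ := Finset.mem_filter.1 hm
        have h7 := hLf ⟨m - γ, hmΩ⟩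
        have h9 : (⟨m - γ, hmΩ⟩ : Ω) ≠ ⟨n - γ, hnΩ⟩ := by
          intro h
          apply hne
          have := congrArg Subtype.val h
          simp only [sub_left_inj] at this
          rw [this]
        rw [Pi.single_eq_of_ne h9] at h7
        have h8 : m - γ + γ = m := sub_add_cancel m γ
        simp only [h8] at h7
        simp only [h7, zero_smul]
      · intro h
        exact absurd (Finset.mem_filter.2 ⟨Finset.mem_product.2 ⟨hn, Finset.mem_univ _⟩,
          rfl, hnΩ⟩) h
    rw [h6, ← hT] at h5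
    rw [eq_neg_of_add_eq_zero_left h5]
    refine Submodule.neg_mem _ (Submodule.sum_mem _ fun p hp => Submodule.smul_mem _ _ ?_)
    exact Submodule.subset_span ⟨⟨p, hp⟩, rfl⟩

end Pool.Agent.L0h84.FR.LINK
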