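import Pool.Agent.L0h79.FR.Defs

/-! Project FR, module MORPH. -/

set_option autoImplicit false
set_option linter.all false
namespace Pool.Agent.L0h84.FR.MORPH

open Pool.Agent.L0h79.FR
open Filter Topology

section
variable {α : Type} (σ : α → List α)

theorem sub_add (n m : ℕ) : ∀ u : List α, sub σ (n + m) u = sub σ n (sub σ m u) := by
  induction m with
  | zero => intro u; rfl
  | succ m ih => intro u; exact ih (u.flatMap σ)

theorem sub_append (n : ℕ) : ∀ u v : List α, sub σ n (u ++ v) = sub σ n u ++ sub σ n v := by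
  induction n with
  | zero => intro u v; rfl
  | succ n ih =>
    intro u v
    show sub σ n ((u ++ v).flatMap σ) = sub σ n (u.flatMap σ) ++ sub σ n (v.flatMap σ)
    rw [List.flatMap_append, ih]

theorem sub_nil (n : ℕ) : sub σ n ([] : List α) = [] := by
  induction n with
  | zero => rfl
  | succ n ih => exact ih

theorem sub_flatMap (n : ℕ) (u : List α) : sub σ n u = u.flatMap fun c => sub σ n [c] := by
  induction u with
  | nil => rw [sub_nil]; rfl
  | cons c u ih =>
    have h : c :: u = [c] ++ u := rfl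
    rw [h, sub_append, ih, List.flatMap_append]
    congr 1
    simp

theorem len_flatMap {A : ℕ} (hA : ∀ c, (σ c).length ≤ A) (u : List α) :
    (u.flatMap σ).length ≤ A * u.length := by
  induction u with
  | nil => simp
  | cons c u ih =>
    rw [List.flatMap_cons, List.length_append, List.length_cons, Nat.mul_succ]
    have := hA c
    omega

theorem len_succ {A : ℕ} (hA : ∀ c, (σ c).length ≤ A) (n : ℕ) (u : List α) :
    (sub σ (n + 1) u).length ≤ A * (sub σ n u).length := by
  rw [Nat.add_comm, sub_add]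
  exact len_flatMap σ hA _

theorem len_add {A : ℕ} (hA : ∀ c, (σ c).length ≤ A) (n j : ℕ) (u : List α) :
    (sub σ (n + j) u).length ≤ A ^ j * (sub σ n u).length := by
  induction j with
  | zero => simp
  | succ j ih =>
    refine (len_succ σ hA (n + j) u).trans ?_
    rw [pow_succ]
    calc A * (sub σ (n + j) u).length ≤ A * (A ^ j * (sub σ n u).length) := Nat.mul_le_mul_left _ ih
      _ = A ^ j * A * (sub σ n u).length := by ring

theorem mem_len {u : List α} {c : α} (h : c ∈ u) (n : ℕ) :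
    (sub σ n [c]).length ≤ (sub σ n u).length := by
  obtain ⟨s, t, rfl⟩ := List.append_of_mem h
  have h1 : s ++ c :: t = s ++ ([c] ++ t) := rfl
  rw [h1, sub_append, sub_append, List.length_append, List.length_append]
  omega

end

theorem t_MORPH : S_MORPH := by
  classical
  intro α _ σ a u hfix hgrow
  obtain ⟨p, n₀, hp⟩ := hgrow
  obtain ⟨hfx, htend⟩ := hfix
  -- bound of the images
  obtain ⟨A, hA1, hA⟩ : ∃ A : ℕ, 1 ≤ A ∧ ∀ c, (σ c).length ≤ A := by
    obtain ⟨B, hB⟩ := (Set.finite_range fun c => (σ c).length).bddAbove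
    exact ⟨B + 1, by omega, fun c => (hB ⟨c, rfl⟩).trans (by omega)⟩
  set l : ℕ → ℕ := fun n => (sub σ n [a]).length with hl
  -- reachable letters
  have hreach : ∃ j₀ : ℕ, ∀ c, (∃ j, c ∈ sub σ j [a]) → ∃ j ≤ j₀, c ∈ sub σ j [a] := by
    have h1 : ∀ c, ∃ j, (∃ j', c ∈ sub σ j' [a]) → c ∈ sub σ j [a] := by
      intro c
      by_cases h : ∃ j', c ∈ sub σ j' [a]
      · obtain ⟨j, hj⟩ := h
        exact ⟨j, fun _ => hj⟩
      · exact ⟨0, fun h' => absurd h' h⟩
    choose J hJ using h1
    obtain ⟨B, hB⟩ := (Set.finite_range J).bddAbove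
    exact ⟨B, fun c hc => ⟨J c, hB ⟨c, rfl⟩, hJ c hc⟩⟩
  obtain ⟨j₀, hj₀⟩ := hreach
  have hlen : ∀ c, (∃ j, c ∈ sub σ j [a]) → ∀ n, (sub σ n [c]).length ≤ A ^ j₀ * l n := by
    intro c hc n
    obtain ⟨j, hj, hcj⟩ := hj₀ c hc
    calc (sub σ n [c]).length ≤ (sub σ n (sub σ j [a])).length := mem_len σ hcj n
      _ = (sub σ (n + j) [a]).length := by rw [sub_add]
      _ ≤ A ^ j * l n := len_add σ hA n j [a]
      _ ≤ A ^ j₀ * l n := Nat.mul_le_mul_right _ (Nat.pow_le_pow_right hA1 hj)
  -- scales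
  have hbdd : ∀ N, BddAbove {n | l n ≤ N} := by
    intro N
    obtain ⟨b, hb⟩ := (htend.eventually_gt_atTop N).exists_forall_of_atTop
    refine ⟨b, fun n hn => ?_⟩
    by_contra h
    push Not at h
    have h1 := hb n h.le
    have h2 : l n ≤ N := hn
    exact absurd h1 (not_lt.2 h2)
  set s : ℕ → ℕ := fun N => sSup {n | l n ≤ N} with hs
  have hl0 : l 0 = 1 := rfl
  have hs1 : ∀ N, 1 ≤ N → l (s N) ≤ N := fun N hN =>
    Nat.sSup_mem (s := {n | l n ≤ N}) ⟨0, by show l 0 ≤ N; omega⟩ (hbdd N)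
  have hs2 : ∀ N n, l n ≤ N → n ≤ s N := fun N n h => le_csSup (hbdd N) h
  have hs3 : ∀ N, N < A * l (s N) := by
    intro N
    by_contra h
    push Not at h
    have h1 : l (s N + 1) ≤ N := (len_succ σ hA (s N) [a]).trans h
    have := hs2 N _ h1
    omega
  -- letters
  obtain ⟨k, ⟨φ⟩⟩ : ∃ k : ℕ, Nonempty (Fin k ≃ α) := ⟨Nat.card α, ⟨(Finite.equivFin α).symm⟩⟩
  refine ⟨k, A ^ j₀, fun N j => if 1 ≤ N ∧ ∃ i, φ j ∈ sub σ i [a] then sub σ (s N) [φ j] else [],
    ?_, ?_⟩
  · intro N j
    dsimp only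
    split_ifs with h
    · exact (hlen _ h.2 _).trans (Nat.mul_le_mul_left _ (hs1 N h.1))
    · simp
  · intro E
    set q := A * E with hq
    refine ⟨l (p * q), max 1 (l n₀), fun N hN => ?_⟩
    have hN1 : 1 ≤ N := (le_max_left _ _).trans hN
    have hn₀ : n₀ ≤ s N := hs2 N n₀ ((le_max_right _ _).trans hN)
    have heq : ((sub σ (p * q) [a]).map φ.symm).flatMap (fun j =>
        if 1 ≤ N ∧ ∃ i, φ j ∈ sub σ i [a] then sub σ (s N) [φ j] else []) =
          sub σ (s N + p * q) [a] := by
      rw [sub_add, sub_flatMap σ (s N), List.flatMap_map]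
      apply List.flatMap_congr
      intro c hc
      simp only [Equiv.apply_symm_apply]
      rw [if_pos ⟨hN1, p * q, hc⟩]
    refine ⟨(sub σ (p * q) [a]).map φ.symm, by rw [List.length_map], ?_, ?_⟩
    · rw [heq]
      have hdouble : ∀ t, 2 ^ t * l (s N) ≤ l (s N + p * t) := by
        intro t
        induction t with
        | zero => simp
        | succ t ih =>
          have h1 := hp (s N + p * t) (by omega)
          have h2 : s N + p * (t + 1) = s N + p * t + p := by ring
          rw [h2, pow_succ]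
          calc 2 ^ t * 2 * l (s N) = 2 * (2 ^ t * l (s N)) := by ring
            _ ≤ 2 * l (s N + p * t) := Nat.mul_le_mul_left _ ih
            _ ≤ _ := h1
      calc E * N ≤ E * (A * l (s N)) := Nat.mul_le_mul_left _ (hs3 N).le
        _ = q * l (s N) := by rw [hq]; ring
        _ ≤ 2 ^ q * l (s N) := Nat.mul_le_mul_right _ (Nat.lt_two_pow_self).le
        _ ≤ _ := hdouble q
    · intro i hi
      rw [List.getElem_of_eq heq hi]
      exact hfx _ _ _

end Pool.Agent.L0h84.FR.MORPH
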